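import Pool.Agent.helper68.PL.SpecB

/-!
# Project pl: module TLX: limits exist along an ultrafilter
-/

set_option autoImplicit false

open Complex Metric Set Filter Topology MeasureTheory
open Pool.Agent.helper98.ILF
open WP (it)
open HY (UD T S hd UN RM)
open PM

noncomputable section

namespace PL

theorem TLX (hFRS : FRS_stmt) (hTMO : V3.TMO_stmt) (hVCF : VCF_stmt) (hVKF : VKF_stmt)
    (hTDF : TDF_stmt) : TLX_stmt := by
  intro f R δ e₀ d₀ k₀ hST x hx U H χ hFR w hw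
  obtain ⟨-, -, -, hΩ, -, -, hK, -⟩ := hFRS f R δ e₀ d₀ k₀ hST x hx U H χ hFR
  have hER : ER f R := ⟨hST.R1, hST.esc⟩
  have hxk : ∀ k, x ∈ VK f R k := hST.Jv x hx
  have key : ∀ ζ₀ ∈ χ '' UD, ∃ r > (0 : ℝ), ∃ C : ℝ, ∀ᶠ j in (U : Filter ℕ),
      DifferentiableOn ℂ (GJ f R x (H j) (w j)) (ball ζ₀ r) ∧
        ∀ y ∈ ball ζ₀ r, ‖GJ f R x (H j) (w j) y‖ ≤ C := by
    intro ζ₀ hζ₀
    obtain ⟨r, hr, hball⟩ := Metric.isOpen_iff.1 hΩ ζ₀ hζ₀
    have hcK : closedBall ζ₀ (r / 2) ⊆ χ '' UD :=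
      (closedBall_subset_ball (by linarith)).trans hball
    have h1 := hK _ hcK (isCompact_closedBall _ _)
    refine ⟨r / 2, by positivity, 1, ?_⟩
    filter_upwards [h1, hw] with j hj hwj
    have hmap : MapsTo (it f (w j)) (VC f R (H j) x) (VC f R (H j - w j) (it f (w j) x)) :=
      (hVCF f R hST.deg hER (H j) x (hxk _)).2.2.2.2.2.2.1 (w j) hwj
    have hwx : it f (w j) x ∈ VK f R (H j - w j) := by
      have h2 := (hVKF f R hST.deg hER).2.2.2.2.1 (H j - w j) (w j) x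
      rw [← h2]
      exact hxk _
    obtain ⟨hDD, hmem, -⟩ := hVCF f R hST.deg hER (H j - w j) (it f (w j) x) hwx
    obtain ⟨-, -, h3⟩ := hTDF _ hDD
    obtain ⟨-, -, -, -, hcd, hcm, -⟩ := h3 (it f (w j) x) hmem
    have hin : ∀ ζ ∈ ball ζ₀ (r / 2), it f (w j) (PZ f R x (H j) ζ) ∈
        VC f R (H j - w j) (it f (w j) x) := fun ζ hζ => hmap (hj ζ (ball_subset_closedBall hζ))
    constructor
    · have hPZ : Differentiable ℂ (PZ f R x (H j)) := by
        unfold PZ
        fun_prop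
      have hit : Differentiable ℂ (it f (w j)) := by
        have h4 : Differentiable ℂ (fun z : ℂ => f.eval z) := f.differentiable
        exact h4.iterate (w j)
      exact DifferentiableOn.comp hcd ((hit.comp hPZ).differentiableOn) hin
    · intro ζ hζ
      have h5 := (hcm _ (hin ζ hζ)).1
      have h6 : ‖cx (VC f R (H j - w j) (it f (w j) x)) (it f (w j) x)
          (it f (w j) (PZ f R x (H j) ζ))‖ < 1 := by
        simpa [HY.UD] using h5
      exact h6.le
  obtain ⟨F, -, hF⟩ := hTMO U (fun j => GJ f R x (H j) (w j)) (χ '' UD) hΩ key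
  exact ⟨F, hw, hF⟩

end PL
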